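import Mathlib

set_option autoImplicit false

open MeasureTheory Set Filter Topology ProbabilityTheory

namespace Pool.Agent.Helper81.GGC

/-- If a nonnegative derivative is known, its lower integral is the increment. -/
theorem gm_ftc (g g' : ℝ → ℝ) (l : ℝ) (hl : 0 < l) (hc : ContinuousOn g (Icc 0 l))
    (hd : ∀ x ∈ Ioo (0 : ℝ) l, HasDerivAt g (g' x) x) (hn : ∀ x ∈ Ioo (0 : ℝ) l, 0 ≤ g' x) :
    ∫⁻ x in Ioo 0 l, ENNReal.ofReal (g' x) = ENNReal.ofReal (g l - g 0) := by
  have hi : IntegrableOn g' (Ioc 0 l) := intervalIntegral.integrableOn_deriv_of_nonneg hc hd hn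
  have hii : IntervalIntegrable g' volume 0 l := by
    rw [intervalIntegrable_iff_integrableOn_Ioc_of_le hl.le]; exact hi
  have h1 := intervalIntegral.integral_eq_sub_of_hasDerivAt_of_le hl.le hc hd hii
  rw [intervalIntegral.integral_of_le hl.le, integral_Ioc_eq_integral_Ioo] at h1
  rw [← h1, ofReal_integral_eq_lintegral_ofReal]
  · exact hi.mono_set Ioo_subset_Ioc_self
  · exact (ae_restrict_iff' measurableSet_Ioo).mpr (Filter.Eventually.of_forall hn)

/-- Laplace transform (as a lower integral). -/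
noncomputable def LL (ν : Measure ℝ) (y : ℝ) : ENNReal := ∫⁻ τ, ENNReal.ofReal (Real.exp (-(τ * y))) ∂ν

theorem LL_gamma {p : ℝ} (hp : 0 < p) (z : ℝ) (hz : 0 ≤ z) :
    LL (gammaMeasure p 1) z = ENNReal.ofReal ((1 + z) ^ (-p)) := by
  have h1z : 0 < 1 + z := by linarith
  unfold LL gammaMeasure
  have hmeas : Measurable (gammaPDF p 1) := (measurable_gammaPDFReal p 1).ennreal_ofReal
  rw [lintegral_withDensity_eq_lintegral_mul _ hmeas (by fun_prop)]
  have h : ∀ x, (gammaPDF p 1 * fun τ => ENNReal.ofReal (Real.exp (-(τ * z)))) x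
      = ENNReal.ofReal ((1 + z) ^ (-p)) * gammaPDF p (1 + z) x := by
    intro x
    simp only [Pi.mul_apply]
    by_cases hx : x < 0
    · rw [gammaPDF_of_neg hx, gammaPDF_of_neg hx]; simp
    · push Not at hx
      rw [gammaPDF_of_nonneg hx, gammaPDF_of_nonneg hx,
        ← ENNReal.ofReal_mul (by have := Real.Gamma_pos_of_pos hp; positivity), ← ENNReal.ofReal_mul (by positivity)]
      congr 1
      have hG := (Real.Gamma_pos_of_pos hp).ne'
      have e1 : (1 + z) ^ (-p) * (1 + z) ^ p = 1 := by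
        rw [← Real.rpow_add h1z]; simp
      have e2 : Real.exp (-((1 + z) * x)) = Real.exp (-(1 * x)) * Real.exp (-(x * z)) := by
        rw [← Real.exp_add]; congr 1; ring
      rw [e2, Real.one_rpow]
      calc 1 / Real.Gamma p * x ^ (p - 1) * Real.exp (-(1 * x)) * Real.exp (-(x * z))
          = ((1 + z) ^ (-p) * (1 + z) ^ p) / Real.Gamma p * x ^ (p - 1) * Real.exp (-(1 * x)) * Real.exp (-(x * z)) := by rw [e1]
        _ = _ := by ring
  have hmeas2 : Measurable (gammaPDF p (1 + z)) := (measurable_gammaPDFReal p (1 + z)).ennreal_ofReal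
  rw [lintegral_congr h, lintegral_const_mul _ hmeas2,
    lintegral_gammaPDF_eq_one hp h1z, mul_one]

theorem gamma_nonneg {p : ℝ} : ∀ᵐ τ ∂(gammaMeasure p 1), 0 ≤ τ := by
  rw [ae_iff]
  have : {a : ℝ | ¬0 ≤ a} = Iio 0 := by ext; simp
  rw [this, gammaMeasure, withDensity_apply _ measurableSet_Iio]
  rw [setLIntegral_congr_fun (g := fun _ => 0) measurableSet_Iio]
  · simp
  · intro x hx; exact gammaPDF_of_neg hx

/-- the basic mixture: Laplace transform `((1+y)^(1-p) - 1)/y` -/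
noncomputable def r1 (p : ℝ) : Measure ℝ :=
  ENNReal.ofReal (1 - p) • (((volume : Measure ℝ).restrict (Ioo 0 1)).prod (gammaMeasure p 1)).map (fun z => z.1 * z.2)

theorem LL_r1 {p : ℝ} (hp0 : 0 < p) (hp1 : p ≤ 1) (y : ℝ) (hy : 0 < y) :
    LL (r1 p) y = ENNReal.ofReal (((1 + y) ^ (1 - p) - 1) / y) := by
  have := isProbabilityMeasure_gammaMeasure hp0 one_pos
  unfold r1 LL
  rw [lintegral_smul_measure, lintegral_map (by fun_prop) (by fun_prop), lintegral_prod _ (by fun_prop)]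
  have h1 : ∫⁻ x in Ioo (0 : ℝ) 1, (∫⁻ w, ENNReal.ofReal (Real.exp (-(x * w * y))) ∂(gammaMeasure p 1))
      = ∫⁻ x in Ioo (0 : ℝ) 1, ENNReal.ofReal ((1 + x * y) ^ (-p)) := by
    apply setLIntegral_congr_fun measurableSet_Ioo
    intro x hx
    have hx0 := hx.1
    simp only
    rw [← LL_gamma hp0 (x * y) (by positivity)]
    unfold LL
    congr 1; funext w
    congr 3; ring
  rw [h1, smul_eq_mul, ← lintegral_const_mul _ (by fun_prop)]
  have h2 : ∀ x : ℝ, 0 ≤ x → HasDerivAt (fun t : ℝ => (1 + t * y) ^ (1 - p) / y) ((1 - p) * (1 + x * y) ^ (-p)) x := by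
    intro x hx
    have h3 : (0 : ℝ) < 1 + x * y := by positivity
    have h4 : HasDerivAt (fun t : ℝ => 1 + t * y) y x := by
      simpa using ((hasDerivAt_id' x).mul_const y).const_add 1
    have h5 := (h4.rpow_const (p := 1 - p) (Or.inl h3.ne')).div_const y
    refine h5.congr_deriv ?_
    have : 1 - p - 1 = -p := by ring
    rw [this]; field_simp
  have h6 := gm_ftc (fun t : ℝ => (1 + t * y) ^ (1 - p) / y) (fun x => (1 - p) * (1 + x * y) ^ (-p)) 1 one_pos
    (fun x hx => (h2 x hx.1).continuousAt.continuousWithinAt) (fun x hx => h2 x hx.1.le)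
    (fun x hx => by have := hx.1; have h7 : 0 ≤ 1 - p := by linarith
                    positivity)
  have h8 : ∫⁻ x in Ioo (0 : ℝ) 1, ENNReal.ofReal (1 - p) * ENNReal.ofReal ((1 + x * y) ^ (-p))
      = ∫⁻ x in Ioo (0 : ℝ) 1, ENNReal.ofReal ((1 - p) * (1 + x * y) ^ (-p)) := by
    congr 1; funext x
    rw [ENNReal.ofReal_mul (by linarith)]
  rw [h8, h6]
  congr 1
  simp only [one_mul, zero_mul, add_zero, Real.one_rpow]
  ring

theorem r1_mass {p : ℝ} (hp0 : 0 < p) : r1 p univ = ENNReal.ofReal (1 - p) := by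
  have := isProbabilityMeasure_gammaMeasure hp0 one_pos
  unfold r1
  rw [Measure.smul_apply, Measure.map_apply (by fun_prop) MeasurableSet.univ, preimage_univ,
    ← univ_prod_univ, Measure.prod_prod]
  simp

theorem r1_fin {p : ℝ} (hp0 : 0 < p) : IsFiniteMeasure (r1 p) :=
  ⟨by rw [r1_mass hp0]; exact ENNReal.ofReal_lt_top⟩

theorem r1_nonneg {p : ℝ} (hp0 : 0 < p) : ∀ᵐ τ ∂(r1 p), 0 ≤ τ := by
  have := isProbabilityMeasure_gammaMeasure hp0 one_pos
  unfold r1
  apply Measure.ae_smul_measure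
  rw [ae_map_iff (by fun_prop) measurableSet_Ici]
  have h1 : ∀ᵐ z ∂(((volume : Measure ℝ).restrict (Ioo 0 1)).prod (gammaMeasure p 1)), z.1 ∈ Ioo (0 : ℝ) 1 :=
    Measure.quasiMeasurePreserving_fst.ae (ae_restrict_mem measurableSet_Ioo)
  have h2 : ∀ᵐ z ∂(((volume : Measure ℝ).restrict (Ioo 0 1)).prod (gammaMeasure p 1)), 0 ≤ z.2 :=
    Measure.quasiMeasurePreserving_snd.ae gamma_nonneg
  filter_upwards [h1, h2] with z h3 h4
  exact mul_nonneg h3.1.le h4

/-- convolution powers -/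
noncomputable def rn (p : ℝ) : ℕ → Measure ℝ
  | 0 => Measure.dirac 0
  | n + 1 => (rn p n).conv (r1 p)

theorem rn_fin {p : ℝ} (hp0 : 0 < p) (n : ℕ) : IsFiniteMeasure (rn p n) := by
  induction n with
  | zero => unfold rn; infer_instance
  | succ n ih =>
    have := r1_fin hp0
    unfold rn Measure.conv
    infer_instance

theorem LL_rn {p : ℝ} (hp0 : 0 < p) (y : ℝ) (n : ℕ) : LL (rn p n) y = (LL (r1 p) y) ^ n := by
  induction n with
  | zero => unfold rn LL; simp
  | succ n ih =>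
    have := r1_fin hp0
    have := rn_fin hp0 n
    rw [pow_succ, ← ih]
    change ∫⁻ τ, ENNReal.ofReal (Real.exp (-(τ * y))) ∂((rn p n).conv (r1 p)) = _
    rw [Measure.lintegral_conv (by fun_prop)]
    unfold LL
    rw [← lintegral_mul_const _ (by fun_prop)]
    congr 1; funext x
    rw [← lintegral_const_mul _ (by fun_prop)]
    congr 1; funext z
    rw [← ENNReal.ofReal_mul (Real.exp_nonneg _), ← Real.exp_add]
    congr 2; ring

theorem rn_mass {p : ℝ} (hp0 : 0 < p) (n : ℕ) : rn p n univ = ENNReal.ofReal (1 - p) ^ n := by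
  have h := LL_rn hp0 0 n
  unfold LL at h
  simp only [mul_zero, neg_zero, Real.exp_zero, ENNReal.ofReal_one, lintegral_one] at h
  rw [h, r1_mass hp0]

theorem rn_nonneg {p : ℝ} (hp0 : 0 < p) (n : ℕ) : ∀ᵐ τ ∂(rn p n), 0 ≤ τ := by
  induction n with
  | zero => unfold rn; rw [ae_dirac_iff measurableSet_Ici]
  | succ n ih =>
    have := r1_fin hp0
    have := rn_fin hp0 n
    unfold rn Measure.conv
    rw [ae_map_iff (by fun_prop) measurableSet_Ici]
    have h1 : ∀ᵐ z ∂((rn p n).prod (r1 p)), 0 ≤ z.1 := Measure.quasiMeasurePreserving_fst.ae ih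
    have h2 : ∀ᵐ z ∂((rn p n).prod (r1 p)), 0 ≤ z.2 := Measure.quasiMeasurePreserving_snd.ae (r1_nonneg hp0)
    filter_upwards [h1, h2] with z h3 h4
    exact add_nonneg h3 h4

theorem g_mix {p : ℝ} (hp0 : 0 < p) (hp1 : p ≤ 1) : ∃ ρ : MeasureTheory.Measure ℝ,
    MeasureTheory.IsFiniteMeasure ρ ∧ (∀ᵐ τ ∂ρ, 0 ≤ τ) ∧
    ∀ x : ℝ, 1 < x → (1 - x⁻¹) / (1 - x ^ (-p)) = ∫ τ, Real.exp (-(τ * (x - 1))) ∂ρ := by
  refine ⟨Measure.sum (rn p), ⟨?_⟩, ?_, ?_⟩
  · rw [Measure.sum_apply _ MeasurableSet.univ]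
    simp only [rn_mass hp0]
    rw [ENNReal.tsum_geometric]
    rw [ENNReal.inv_lt_top, tsub_pos_iff_lt]
    rw [ENNReal.ofReal_lt_one]; linarith
  · rw [Measure.ae_sum_iff]
    exact fun n => rn_nonneg hp0 n
  · intro x hx
    have hy : 0 < x - 1 := by linarith
    have hx0 : 0 < x := by linarith
    set q : ℝ := ((1 + (x - 1)) ^ (1 - p) - 1) / (x - 1) with hq
    have hxx : 1 + (x - 1) = x := by ring
    have hq1 : q = (x ^ (1 - p) - 1) / (x - 1) := by rw [hq, hxx]
    have hpow : x ^ (1 - p) = x * x ^ (-p) := by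
      rw [show (1 - p) = 1 + (-p) by ring, Real.rpow_add hx0, Real.rpow_one]
    have hlt : x ^ (-p) < 1 := Real.rpow_lt_one_of_one_lt_of_neg hx (by linarith)
    have hxp : 0 < x ^ (-p) := Real.rpow_pos_of_pos hx0 _
    have hq2 : 1 - q = x * (1 - x ^ (-p)) / (x - 1) := by
      rw [hq1, hpow]; field_simp; ring
    have hq3 : 0 < 1 - q := by
      rw [hq2]; apply div_pos _ hy; apply mul_pos hx0; linarith
    have hqn : 0 ≤ q := by
      rw [hq1]; apply div_nonneg _ hy.le
      have : (1 : ℝ) ≤ x ^ (1 - p) := Real.one_le_rpow hx.le (by linarith)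
      linarith
    rw [integral_eq_lintegral_of_nonneg_ae (Filter.Eventually.of_forall (fun τ => Real.exp_nonneg _))
      (by fun_prop)]
    have h1 : ∫⁻ τ, ENNReal.ofReal (Real.exp (-(τ * (x - 1)))) ∂(Measure.sum (rn p)) = ENNReal.ofReal ((1 - q)⁻¹) := by
      rw [lintegral_sum_measure]
      have : ∀ n, ∫⁻ τ, ENNReal.ofReal (Real.exp (-(τ * (x - 1)))) ∂(rn p n) = (ENNReal.ofReal q) ^ n := by
        intro n
        rw [← LL_r1 hp0 hp1 (x - 1) hy, ← LL_rn hp0]; rfl
      simp only [this]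
      rw [ENNReal.tsum_geometric, ENNReal.ofReal_inv_of_pos hq3, ENNReal.ofReal_sub _ hqn, ENNReal.ofReal_one]
    rw [h1, ENNReal.toReal_ofReal (inv_nonneg.mpr hq3.le), hq2]
    have h9 : 1 - x ^ (-p) ≠ 0 := by linarith
    field_simp

end Pool.Agent.Helper81.GGC
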