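import Mathlib

set_option autoImplicit false

open MeasureTheory Set Filter Topology

namespace Pool.Agent.Helper81.GGC

/-- The normalised Thorin kernel: with `x = t/(1+t)` it is `log(1+l/t)/log(1+1/t)`;
`x = 1` is the drift `l`, `x = 0` a constant. -/
noncomputable def K (l x : ℝ) : ℝ :=
  if x ≤ 0 then 1 else if 1 ≤ x then l else (Real.log (x + l * (1 - x)) - Real.log x) / (-Real.log x)

/-- Functions `exp(-k - a l - ∫ log(1+l/t) U(dt))` on `(0, ∞)` (compactified form). -/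
def T (φ : ℝ → ℝ) : Prop :=
  ∃ V : FiniteMeasure (Icc (0 : ℝ) 1), ∀ l : ℝ, 0 < l →
    φ l = Real.exp (-∫ x : Icc (0 : ℝ) 1, K l x ∂(V : Measure (Icc (0 : ℝ) 1)))

theorem measurable_K (l : ℝ) : Measurable (K l) := by
  unfold K
  apply Measurable.ite measurableSet_Iic measurable_const
  apply Measurable.ite measurableSet_Ici measurable_const
  fun_prop

/-- If a nonnegative derivative is known, its lower integral is the increment. -/
theorem ftc_nonneg (g g' : ℝ → ℝ) (l : ℝ) (hl : 0 < l) (hc : ContinuousOn g (Icc 0 l))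
    (hd : ∀ x ∈ Ioo (0 : ℝ) l, HasDerivAt g (g' x) x) (hn : ∀ x ∈ Ioo (0 : ℝ) l, 0 ≤ g' x) :
    ∫⁻ x in Ioo 0 l, ENNReal.ofReal (g' x) = ENNReal.ofReal (g l - g 0) := by
  have hi : IntegrableOn g' (Ioc 0 l) := intervalIntegral.integrableOn_deriv_of_nonneg hc hd hn
  have hii : IntervalIntegrable g' volume 0 l := by
    rw [intervalIntegrable_iff_integrableOn_Ioc_of_le hl.le]; exact hi
  have h1 := intervalIntegral.integral_eq_sub_of_hasDerivAt_of_le hl.le hc hd hii
  rw [intervalIntegral.integral_of_le hl.le, integral_Ioc_eq_integral_Ioo] at h1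
  rw [← h1, ofReal_integral_eq_lintegral_ofReal]
  · exact hi.mono_set Ioo_subset_Ioc_self
  · exact (ae_restrict_iff' measurableSet_Ioo).mpr (Filter.Eventually.of_forall hn)

/-- `∫ dx/x²` diverges at `0`. -/
theorem lintegral_inv_sq (t : ℝ) (ht : 0 < t) :
    ∫⁻ x in Ioo 0 t, (ENNReal.ofReal (x ^ 2))⁻¹ = ⊤ := by
  by_contra h
  have h1 : IntegrableOn (fun x : ℝ => x ^ (-2 : ℝ)) (Ioo 0 t) := by
    refine ⟨(by fun_prop : Measurable (fun x : ℝ => x ^ (-2 : ℝ))).aestronglyMeasurable, ?_⟩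
    rw [hasFiniteIntegral_iff_enorm]
    refine lt_of_le_of_lt ?_ (lt_top_iff_ne_top.mpr h)
    apply setLIntegral_mono_ae' measurableSet_Ioo
    filter_upwards with x hx
    rw [Real.enorm_eq_ofReal (Real.rpow_nonneg hx.1.le _), ← ENNReal.ofReal_inv_of_pos (pow_pos hx.1 2),
      Real.rpow_neg hx.1.le]
    norm_num
  rw [intervalIntegral.integrableOn_Ioo_rpow_iff ht] at h1
  norm_num at h1

/-- A zero of a linear function in `[0, t)` makes the integral of the inverse square infinite. -/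
theorem lintegral_inv_linear_sq (c σ t : ℝ) (hc : c ≤ 0) (hσ : 0 < σ) (ht : -c / σ < t) :
    ∫⁻ x in Ioo 0 t, (ENNReal.ofReal ((x * σ + c) ^ 2))⁻¹ = ⊤ := by
  set r : ℝ := -c / σ with hr
  have hr0 : 0 ≤ r := div_nonneg (by linarith) hσ.le
  have h2 : ∫⁻ x in Ioo r t, (ENNReal.ofReal ((x * σ + c) ^ 2))⁻¹ = ⊤ := by
    have h3 : ∀ x : ℝ, x * σ + c = σ * (x - r) := by
      intro x; rw [hr]; field_simp; ring
    have h4 : ∫⁻ x in Ioo r t, (ENNReal.ofReal ((x * σ + c) ^ 2))⁻¹
        = ∫⁻ x in Ioo 0 (t - r), (ENNReal.ofReal ((σ * x) ^ 2))⁻¹ := by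
      have h5 : MeasurePreserving (fun x : ℝ => x + r) volume volume := measurePreserving_add_right _ r
      have h6 : (fun x : ℝ => x + r) ⁻¹' (Ioo r t) = Ioo 0 (t - r) := by
        ext x; simp only [mem_preimage, mem_Ioo]; constructor <;> rintro ⟨a, b⟩ <;> constructor <;> linarith
      rw [← h6, ← h5.setLIntegral_comp_preimage measurableSet_Ioo (by fun_prop)]
      congr 1; funext x
      rw [h3]; ring_nf
    rw [h4]
    have h7 : ∫⁻ x in Ioo 0 (t - r), (ENNReal.ofReal ((σ * x) ^ 2))⁻¹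
        = (ENNReal.ofReal (σ ^ 2))⁻¹ * ∫⁻ x in Ioo 0 (t - r), (ENNReal.ofReal (x ^ 2))⁻¹ := by
      rw [← lintegral_const_mul _ (by fun_prop)]
      congr 1; funext x
      rw [mul_pow, ENNReal.ofReal_mul (by positivity), ENNReal.mul_inv]
      · left; simp; positivity
      · left; exact ENNReal.ofReal_ne_top
    rw [h7, lintegral_inv_sq _ (by linarith)]
    apply ENNReal.mul_top
    simp
  rw [eq_top_iff, ← h2]
  exact lintegral_mono_set (Ioo_subset_Ioo_left hr0)

end Pool.Agent.Helper81.GGC
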