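import Mathlib

set_option autoImplicit false

open Complex MeasureTheory Metric Real Set Filter Topology

namespace Pool.Agent.Helper81.GGC

/-- A function holomorphic on the unit disc with nonnegative imaginary part: its imaginary part
is the Poisson integral of a finite measure on `[0, 2π]`. -/
theorem herglotz (F : ℂ → ℂ) (hF : DifferentiableOn ℂ F (ball 0 1))
    (hpos : ∀ w ∈ ball (0 : ℂ) 1, 0 ≤ (F w).im) :
    ∃ μ : FiniteMeasure (Icc (0 : ℝ) (2 * π)), ∀ w ∈ ball (0 : ℂ) 1,
      (F w).im = ∫ s : Icc (0 : ℝ) (2 * π), (1 - ‖w‖ ^ 2) / ‖cexp ((s : ℝ) * I) - w‖ ^ 2 ∂(μ : Measure _) := by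
  have hpi : (0 : ℝ) < 2 * π := by positivity
  let m0 : Measure (Icc (0 : ℝ) (2 * π)) := (volume : Measure ℝ).comap Subtype.val
  have hm0fin : IsFiniteMeasure m0 := by
    constructor
    simp only [m0]
    rw [Measure.comap_apply _ Subtype.val_injective (fun s hs => measurableSet_Icc.subtype_image hs) _ MeasurableSet.univ,
      image_univ, Subtype.range_coe]
    exact measure_Icc_lt_top
  set r : ℕ → ℝ := fun n => 1 - 1 / ((n : ℝ) + 2) with hr
  have hr0 : ∀ n, 0 < r n := by
    intro n
    have h2 : (1 : ℝ) / ((n : ℝ) + 2) ≤ 1 / 2 := by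
      apply one_div_le_one_div_of_le <;> [norm_num; (have := Nat.cast_nonneg (α := ℝ) n; linarith)]
    simp only [hr]; linarith
  have hr1 : ∀ n, r n < 1 := by
    intro n
    have h2 : (0 : ℝ) < 1 / ((n : ℝ) + 2) := by positivity
    simp only [hr]; linarith
  have hrt : Tendsto r atTop (𝓝 1) := by
    have h1 : Tendsto (fun n : ℕ => 1 / ((n : ℝ) + 2)) atTop (𝓝 0) := by
      have := tendsto_one_div_add_atTop_nhds_zero_nat (𝕜 := ℝ)
      have h3 := this.comp (tendsto_add_atTop_nat 1)
      refine h3.congr (fun n => ?_)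
      simp only [Function.comp_apply]; push_cast; ring_nf
    simpa [hr] using (tendsto_const_nhds (x := (1 : ℝ))).sub h1
  -- the scaled functions
  have hmem : ∀ n, ∀ z ∈ closedBall (0 : ℂ) 1, (r n : ℂ) * z ∈ ball (0 : ℂ) 1 := by
    intro n z hz
    rw [mem_closedBall_zero_iff] at hz
    rw [mem_ball_zero_iff, norm_mul, Complex.norm_real, Real.norm_eq_abs, abs_of_pos (hr0 n)]
    calc r n * ‖z‖ ≤ r n * 1 := by have := hr0 n; gcongr
      _ < 1 := by rw [mul_one]; exact hr1 n
  have hdiff : ∀ n, DifferentiableOn ℂ (fun z => F ((r n : ℂ) * z)) (closedBall 0 1) := by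
    intro n
    exact hF.comp (by fun_prop) (fun z hz => hmem n z hz)
  have hdc : ∀ n, DiffContOnCl ℂ (fun z => F ((r n : ℂ) * z)) (ball 0 1) := by
    intro n
    apply DifferentiableOn.diffContOnCl
    rw [closure_ball (0 : ℂ) one_ne_zero]
    exact hdiff n
  -- density
  set d : ℕ → Icc (0 : ℝ) (2 * π) → ℝ := fun n s => (2 * π)⁻¹ * (F ((r n : ℂ) * cexp ((s : ℝ) * I))).im with hd
  have hcirc : ∀ s : ℝ, cexp (s * I) ∈ closedBall (0 : ℂ) 1 := by
    intro s
    rw [mem_closedBall_zero_iff, Complex.norm_exp_ofReal_mul_I]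
  have hdcont' : ∀ n, Continuous (fun s : ℝ => (F ((r n : ℂ) * cexp ((s : ℝ) * I)))) := by
    intro n
    have h1 : ContinuousOn (fun z => F ((r n : ℂ) * z)) (closedBall 0 1) := (hdiff n).continuousOn
    exact h1.comp_continuous (by fun_prop) (fun s => hcirc s)
  have hdcont : ∀ n, Continuous (d n) := by
    intro n
    have h2 : Continuous (fun s : Icc (0 : ℝ) (2 * π) => (F ((r n : ℂ) * cexp ((s : ℝ) * I)))) :=
      (hdcont' n).comp continuous_subtype_val
    exact continuous_const.mul (Complex.continuous_im.comp h2)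
  have hd0 : ∀ n s, 0 ≤ d n s := by
    intro n s
    have := hpos _ (hmem n _ (hcirc s))
    simp only [hd]; positivity
  -- key formula
  have hkey : ∀ n, ∀ w ∈ ball (0 : ℂ) 1, (F ((r n : ℂ) * w)).im =
      ∫ s : Icc (0 : ℝ) (2 * π), (1 - ‖w‖ ^ 2) / ‖cexp ((s : ℝ) * I) - w‖ ^ 2 * d n s ∂m0 := by
    intro n w hw
    have h1 := (hdc n).circleAverage_poissonKernel_smul hw
    have h2 : circleAverage (fun z => poissonKernel 0 w z * (F ((r n : ℂ) * z)).im) 0 1
        = (F ((r n : ℂ) * w)).im := by
      have hci : CircleIntegrable (poissonKernel 0 w • fun z => F ((r n : ℂ) * z)) 0 1 := by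
        apply ContinuousOn.circleIntegrable zero_le_one
        apply ContinuousOn.smul
        · rw [poissonKernel_eq_re_herglotzRieszKernel]
          refine Complex.continuous_re.comp_continuousOn ?_
          have := continuousOn_herglotzRieszKernel_sphere (c := (0 : ℂ)) (R := 1) hw
          simpa using this
        · exact ((hdiff n).continuousOn).mono sphere_subset_closedBall
      have h3 := imCLM.circleAverage_comp_comm hci
      rw [h1] at h3
      rw [← imCLM_apply, ← h3]
      apply congrArg (fun f => circleAverage f 0 1)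
      funext z
      simp [Pi.smul_apply']
    rw [← h2, Real.circleAverage, intervalIntegral.integral_of_le hpi.le,
      ← integral_Icc_eq_integral_Ioc, ← integral_subtype_comap measurableSet_Icc, smul_eq_mul, ← integral_const_mul]
    congr 1
    funext s
    simp only [hd, circleMap, poissonKernel, zero_add, sub_zero, ofReal_one, one_mul]
    rw [Complex.norm_exp_ofReal_mul_I]
    ring
  -- measures
  set C : ℝ := (F 0).im with hC
  have hm : ∀ n, ∫ s, d n s ∂m0 = C := by
    intro n
    have := hkey n 0 (by simp)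
    simp only [mul_zero, norm_zero, sub_zero, Complex.norm_exp_ofReal_mul_I] at this
    rw [hC, this]
    congr 1; funext s; simp
  have hint : ∀ n, Integrable (d n) m0 := by
    intro n
    exact (hdcont n).integrable_of_hasCompactSupport (HasCompactSupport.of_compactSpace _)
  have hfin : ∀ n, IsFiniteMeasure (m0.withDensity
      (fun s => ENNReal.ofReal (d n s))) := by
    intro n
    apply isFiniteMeasure_withDensity_ofReal
    exact (hint n).2
  let μ : ℕ → FiniteMeasure (Icc (0 : ℝ) (2 * π)) := fun n =>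
    ⟨m0.withDensity (fun s => ENNReal.ofReal (d n s)), hfin n⟩
  have hμint : ∀ n, ∀ g : Icc (0 : ℝ) (2 * π) → ℝ,
      ∫ s, g s ∂(μ n : Measure _) = ∫ s, g s * d n s ∂m0 := by
    intro n g
    change ∫ s, g s ∂(m0.withDensity
      (fun s => ENNReal.ofReal (d n s))) = _
    rw [integral_withDensity_eq_integral_toReal_smul]
    · congr 1; funext s
      rw [ENNReal.toReal_ofReal (hd0 n s), smul_eq_mul, mul_comm]
    · exact (hdcont n).measurable.ennreal_ofReal
    · filter_upwards with s using ENNReal.ofReal_lt_top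
  have hC0 : 0 ≤ C := hpos 0 (by simp)
  have hmass : ∀ n, (μ n).mass = C.toNNReal := by
    intro n
    have h1 : ((μ n).mass : ℝ) = ∫ s, d n s ∂m0 := by
      have h2 := hμint n (fun _ => 1)
      simp only [one_mul, integral_const, smul_eq_mul, mul_one] at h2
      rw [← h2]
      rfl
    rw [hm n] at h1
    ext
    rw [h1, Real.coe_toNNReal _ hC0]
  have hcomp := isCompact_setOfPred_finiteMeasure_eq_of_compactSpace (Icc (0 : ℝ) (2 * π)) C.toNNReal
  obtain ⟨ν, -, hν⟩ := hcomp.ultrafilter_le_nhds (Ultrafilter.map μ (hyperfilter ℕ))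
    (by
      rw [le_principal_iff, Ultrafilter.coe_map, mem_map]
      exact Filter.Eventually.of_forall (fun n => hmass n))
  have hν' : Tendsto μ (hyperfilter ℕ : Filter ℕ) (𝓝 ν) := hν
  have hle : (hyperfilter ℕ : Filter ℕ) ≤ atTop := by
    rw [← Nat.cofinite_eq_atTop]; exact hyperfilter_le_cofinite
  refine ⟨ν, fun w hw => ?_⟩
  have hden : ∀ s : ℝ, ‖cexp ((s : ℝ) * I) - w‖ ^ 2 ≠ 0 := by
    intro s h
    have h1 : cexp (s * I) = w := by
      have := pow_eq_zero_iff (two_ne_zero) |>.mp h
      exact sub_eq_zero.mp (norm_eq_zero.mp this)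
    have h2 : ‖w‖ = 1 := by rw [← h1, Complex.norm_exp_ofReal_mul_I]
    rw [mem_ball_zero_iff] at hw
    linarith
  have hPcont : Continuous (fun s : Icc (0 : ℝ) (2 * π) => (1 - ‖w‖ ^ 2) / ‖cexp ((s : ℝ) * I) - w‖ ^ 2) := by
    apply Continuous.div continuous_const
    · fun_prop
    · intro s; exact hden s
  let P : BoundedContinuousFunction (Icc (0 : ℝ) (2 * π)) ℝ := BoundedContinuousFunction.mkOfCompact ⟨_, hPcont⟩
  have h1 := (FiniteMeasure.tendsto_iff_forall_integral_tendsto.mp hν') P
  have h2 : Tendsto (fun n => (F ((r n : ℂ) * w)).im) (hyperfilter ℕ : Filter ℕ) (𝓝 (F w).im) := by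
    have hcont : ContinuousAt (fun z => (F z).im) w :=
      Complex.continuous_im.continuousAt.comp (hF.differentiableAt (isOpen_ball.mem_nhds hw)).continuousAt
    have h3 : Tendsto (fun n => (r n : ℂ) * w) atTop (𝓝 w) := by
      have h4 : Tendsto (fun n => (r n : ℂ)) atTop (𝓝 ((1 : ℝ) : ℂ)) :=
        (Complex.continuous_ofReal.tendsto 1).comp hrt
      have := h4.mul_const w
      simpa using this
    exact (hcont.tendsto.comp h3).mono_left hle
  have h3 : (fun n => ∫ s, P s ∂(μ n : Measure _)) = fun n => (F ((r n : ℂ) * w)).im := by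
    funext n
    rw [hkey n w hw, hμint n]
    rfl
  rw [h3] at h1
  exact tendsto_nhds_unique h2 h1

end Pool.Agent.Helper81.GGC
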