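import Pool.Agent.Helper81.GGC.Defs

set_option autoImplicit false

open MeasureTheory Set Filter Topology

namespace Pool.Agent.Helper81.GGC

/-- the kernel `∫_0^l dt/(c (tσ+c))` -/
noncomputable def Q (l c σ : ℝ) : ℝ := if σ = 0 then l / c ^ 2 else Real.log (1 + l * σ / c) / (σ * c)

theorem hasDerivAt_Q (c σ t : ℝ) (hc : 0 < c) (hσ : 0 ≤ σ) (ht : 0 ≤ t) :
    HasDerivAt (fun l => Q l c σ) (1 / (c * (t * σ + c))) t := by
  unfold Q
  split_ifs with h
  · subst h
    have h0 : HasDerivAt (fun l : ℝ => l / c ^ 2) (1 / c ^ 2) t := (hasDerivAt_id' t).div_const (c ^ 2)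
    refine h0.congr_deriv ?_
    rw [mul_zero, zero_add, sq]
  · have hσ' : 0 < σ := lt_of_le_of_ne hσ (Ne.symm h)
    have h1 : (0 : ℝ) < 1 + t * σ / c := by positivity
    have h2 : HasDerivAt (fun l : ℝ => 1 + l * σ / c) (σ / c) t := by
      have := (((hasDerivAt_id' t).mul_const σ).div_const c).const_add 1
      simpa using this
    have h3 := (h2.log h1.ne').div_const (σ * c)
    refine h3.congr_deriv ?_
    have h4 : t * σ + c ≠ 0 := by positivity
    have h5 : 1 + t * σ / c = (t * σ + c) / c := by field_simp; ring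
    rw [h5]
    field_simp

theorem Q_nonneg (l c σ : ℝ) (hl : 0 ≤ l) (hc : 0 < c) (hσ : 0 ≤ σ) : 0 ≤ Q l c σ := by
  unfold Q
  split_ifs with h
  · positivity
  · apply div_nonneg
    · apply Real.log_nonneg
      have : 0 ≤ l * σ / c := by positivity
      linarith
    · positivity

theorem Q_zero (c σ : ℝ) : Q 0 c σ = 0 := by
  unfold Q; split_ifs <;> simp

theorem lint_Q (l c σ : ℝ) (hl : 0 < l) (hc : 0 < c) (hσ : 0 ≤ σ) :
    ∫⁻ t in Ioo 0 l, ENNReal.ofReal (1 / (c * (t * σ + c))) = ENNReal.ofReal (Q l c σ) := by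
  have h := ftc_nonneg (fun l => Q l c σ) (fun t => 1 / (c * (t * σ + c))) l hl
    (fun t ht => (hasDerivAt_Q c σ t hc hσ ht.1).continuousAt.continuousWithinAt)
    (fun t ht => hasDerivAt_Q c σ t hc hσ ht.1.le)
    (fun t ht => by have := ht.1; positivity)
  rw [h, Q_zero, sub_zero]

theorem lint_P (t c σ : ℝ) (ht : 0 < t) (hc : 0 < c) (hσ : 0 ≤ σ) :
    ∫⁻ x in Ioo 0 t, (ENNReal.ofReal ((x * σ + c) ^ 2))⁻¹ = ENNReal.ofReal (t / (c * (t * σ + c))) := by
  have hd : ∀ x : ℝ, 0 ≤ x → HasDerivAt (fun x : ℝ => x / (c * (x * σ + c))) (1 / (x * σ + c) ^ 2) x := by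
    intro x hx
    have h4 : x * σ + c ≠ 0 := by positivity
    have h1 : HasDerivAt (fun x : ℝ => c * (x * σ + c)) (c * σ) x := by
      have := (((hasDerivAt_id' x).mul_const σ).add_const c).const_mul c
      simpa using this
    have h2 := (hasDerivAt_id' x).div h1 (mul_ne_zero hc.ne' h4)
    refine h2.congr_deriv ?_
    field_simp
    ring
  have h := ftc_nonneg (fun x : ℝ => x / (c * (x * σ + c))) (fun x => 1 / (x * σ + c) ^ 2) t ht
    (fun x hx => (hd x hx.1).continuousAt.continuousWithinAt)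
    (fun x hx => hd x hx.1.le)
    (fun x hx => by positivity)
  simp only [zero_div, sub_zero] at h
  rw [← h]
  apply setLIntegral_congr_fun measurableSet_Ioo
  intro x hx
  have hx1 := hx.1
  have : 0 < x * σ + c := by positivity
  simp only
  rw [one_div, ENNReal.ofReal_inv_of_pos (by positivity)]

/-- relation with the normalised kernel -/
theorem K_Q (l c σ : ℝ) (hl : 0 < l) (hc : 0 < c) (hσ : 0 ≤ σ) (hcσ : σ = 0 → c = 1) :
    K l (c / (c + σ)) * Q 1 c σ = Q l c σ := by
  have hcs : 0 < c + σ := by positivity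
  by_cases h : σ = 0
  · subst h
    have := hcσ rfl
    subst this
    unfold K Q
    norm_num
  · have hσ' : 0 < σ := lt_of_le_of_ne hσ (Ne.symm h)
    have h0 : ¬ (c / (c + σ) ≤ 0) := by
      push Not; positivity
    have h1 : ¬ (1 ≤ c / (c + σ)) := by
      push Not; rw [div_lt_one hcs]; linarith
    unfold K Q
    rw [if_neg h0, if_neg h1, if_neg h, if_neg h]
    have hlog : -Real.log (c / (c + σ)) = Real.log (1 + 1 * σ / c) := by
      rw [← Real.log_inv]; congr 1; field_simp
    have hpos : 0 < Real.log (1 + 1 * σ / c) := by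
      apply Real.log_pos
      have : 0 < 1 * σ / c := by positivity
      linarith
    have hlog2 : Real.log (c / (c + σ) + l * (1 - c / (c + σ))) - Real.log (c / (c + σ))
        = Real.log (1 + l * σ / c) := by
      have e1 : c / (c + σ) + l * (1 - c / (c + σ)) = (c + l * σ) / (c + σ) := by field_simp; ring
      rw [e1, ← Real.log_div (by positivity) (by positivity)]
      congr 1; field_simp
    rw [hlog, hlog2]
    field_simp
    rw [mul_div_assoc, div_self, mul_one]
    have e2 : (c + σ) / c = 1 + 1 * σ / c := by field_simp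
    rw [e2]; exact hpos.ne'

theorem pick_real (n n' D : ℝ → ℝ) (μ : FiniteMeasure (Icc (0 : ℝ) (2 * Real.pi))) (D0 : ℝ)
    (hn' : ∀ x, 0 < x → HasDerivAt n (n' x) x) (hn'0 : ∀ x, 0 < x → 0 ≤ n' x)
    (hn0 : ∀ x, 0 < x → 0 ≤ n x)
    (hD : ∀ x, 0 < x → HasDerivAt D (n x / x) x) (hDt : Tendsto D (𝓝[>] 0) (𝓝 D0)) (hD0 : 0 ≤ D0)
    (hform : ∀ x, 0 < x → ∫⁻ s : Icc (0 : ℝ) (2 * Real.pi),
      (ENNReal.ofReal ((x * Real.sin ((s : ℝ) / 2) + Real.cos ((s : ℝ) / 2)) ^ 2))⁻¹ ∂(μ : Measure _)
        = ENNReal.ofReal (n' x)) :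
    ∃ V : FiniteMeasure (Icc (0 : ℝ) 1), ∀ l : ℝ, 0 < l →
      D l = ∫ x : Icc (0 : ℝ) 1, K l x ∂(V : Measure (Icc (0 : ℝ) 1)) := by
  -- D is monotone, D0 ≤ D
  have hDmono : MonotoneOn D (Ioi 0) := by
    apply monotoneOn_of_deriv_nonneg (convex_Ioi 0)
    · intro x hx; exact (hD x hx).continuousAt.continuousWithinAt
    · intro x hx
      rw [interior_Ioi] at hx
      exact (hD x hx).differentiableAt.differentiableWithinAt
    · intro x hx
      rw [interior_Ioi] at hx
      rw [(hD x hx).deriv]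
      exact div_nonneg (hn0 x hx) (le_of_lt hx)
  have hD0le : ∀ x, 0 < x → D0 ≤ D x := by
    intro x hx
    apply le_of_tendsto hDt
    filter_upwards [Ioo_mem_nhdsGT hx] with y hy
    exact hDmono hy.1 hx hy.2.le
  have hnmono : MonotoneOn n (Ioi 0) := by
    apply monotoneOn_of_deriv_nonneg (convex_Ioi 0)
    · intro x hx; exact (hn' x hx).continuousAt.continuousWithinAt
    · intro x hx
      rw [interior_Ioi] at hx
      exact (hn' x hx).differentiableAt.differentiableWithinAt
    · intro x hx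
      rw [interior_Ioi] at hx
      rw [(hn' x hx).deriv]
      exact hn'0 x hx
  -- n tends to 0 at 0
  have hnbound : ∀ x ∈ Ioo (0 : ℝ) 1, n x ≤ (D 1 - D0) / (-Real.log x) := by
    intro x hx
    have hlogneg : 0 < -Real.log x := by
      have := Real.log_neg hx.1 hx.2; linarith
    rw [le_div_iff₀ hlogneg]
    have hmono : MonotoneOn (fun t => D t - n x * Real.log t) (Icc x 1) := by
      apply monotoneOn_of_deriv_nonneg (convex_Icc x 1)
      · intro t ht
        have ht0 : 0 < t := lt_of_lt_of_le hx.1 ht.1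
        exact ((hD t ht0).continuousAt.sub (continuousAt_const.mul
          (Real.continuousAt_log ht0.ne'))).continuousWithinAt
      · intro t ht
        rw [interior_Icc] at ht
        have ht0 : 0 < t := lt_trans hx.1 ht.1
        exact ((hD t ht0).differentiableAt.sub ((Real.differentiableAt_log ht0.ne').const_mul _)).differentiableWithinAt
      · intro t ht
        rw [interior_Icc] at ht
        have ht0 : 0 < t := lt_trans hx.1 ht.1
        have h1 : HasDerivAt (fun t => D t - n x * Real.log t) (n t / t - n x * t⁻¹) t :=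
          (hD t ht0).sub ((Real.hasDerivAt_log ht0.ne').const_mul _)
        rw [h1.deriv]
        have h2 : n x ≤ n t := hnmono hx.1 ht0 ht.1.le
        have h3 : n t / t - n x * t⁻¹ = (n t - n x) / t := by ring
        rw [h3]
        exact div_nonneg (by linarith) ht0.le
    have h4 := hmono (left_mem_Icc.mpr hx.2.le) (right_mem_Icc.mpr hx.2.le) hx.2.le
    simp only [Real.log_one, mul_zero, sub_zero] at h4
    have h5 := hD0le x hx.1
    linarith
  have hnt : Tendsto n (𝓝[>] 0) (𝓝 0) := by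
    have h1 : Tendsto (fun x : ℝ => (D 1 - D0) / (-Real.log x)) (𝓝[>] 0) (𝓝 0) := by
      apply Tendsto.const_div_atTop
      exact tendsto_neg_atBot_atTop.comp Real.tendsto_log_nhdsGT_zero
    apply tendsto_of_tendsto_of_tendsto_of_le_of_le' tendsto_const_nhds h1
    · filter_upwards [self_mem_nhdsWithin] with x hx using hn0 x hx
    · filter_upwards [Ioo_mem_nhdsGT (zero_lt_one' ℝ)] with x hx using hnbound x hx
  -- first integration
  have hI1 : ∀ t, 0 < t → ∫⁻ x in Ioo 0 t, ENNReal.ofReal (n' x) = ENNReal.ofReal (n t) := by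
    intro t ht
    have h := ftc_nonneg (fun x => if x ≤ 0 then 0 else n x) n' t ht ?_ ?_ ?_
    · rw [h]; simp [not_le.mpr ht]
    · intro x hx
      rcases eq_or_lt_of_le hx.1 with h0 | h0
      · rw [← h0]
        have h2 : ContinuousWithinAt (fun x => if x ≤ 0 then 0 else n x) (Ici 0) 0 := by
          rw [← continuousWithinAt_Ioi_iff_Ici]
          have : Tendsto (fun x => if x ≤ 0 then 0 else n x) (𝓝[>] 0) (𝓝 0) := by
            refine hnt.congr' ?_
            filter_upwards [self_mem_nhdsWithin] with x hx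
            rw [if_neg (not_le.mpr hx)]
          unfold ContinuousWithinAt
          simpa using this
        exact h2.mono Icc_subset_Ici_self
      · have : ContinuousAt (fun x => if x ≤ 0 then 0 else n x) x := by
          refine (hn' x h0).continuousAt.congr ?_
          filter_upwards [lt_mem_nhds h0] with y hy
          rw [if_neg (not_le.mpr hy)]
        exact this.continuousWithinAt
    · intro x hx
      refine (hn' x hx.1).congr_of_eventuallyEq ?_
      filter_upwards [lt_mem_nhds hx.1] with y hy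
      rw [if_neg (not_le.mpr hy)]
    · intro x hx; exact hn'0 x hx.1
  have hI2 : ∀ l, 0 < l → ∫⁻ x in Ioo 0 l, ENNReal.ofReal (n x / x) = ENNReal.ofReal (D l - D0) := by
    intro t ht
    have h := ftc_nonneg (fun x => if x ≤ 0 then D0 else D x) (fun x => n x / x) t ht ?_ ?_ ?_
    · rw [h]; simp [not_le.mpr ht]
    · intro x hx
      rcases eq_or_lt_of_le hx.1 with h0 | h0
      · rw [← h0]
        have h2 : ContinuousWithinAt (fun x => if x ≤ 0 then D0 else D x) (Ici 0) 0 := by
          rw [← continuousWithinAt_Ioi_iff_Ici]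
          have : Tendsto (fun x => if x ≤ 0 then D0 else D x) (𝓝[>] 0) (𝓝 D0) := by
            refine hDt.congr' ?_
            filter_upwards [self_mem_nhdsWithin] with x hx
            rw [if_neg (not_le.mpr hx)]
          unfold ContinuousWithinAt
          simpa using this
        exact h2.mono Icc_subset_Ici_self
      · have : ContinuousAt (fun x => if x ≤ 0 then D0 else D x) x := by
          refine (hD x h0).continuousAt.congr ?_
          filter_upwards [lt_mem_nhds h0] with y hy
          rw [if_neg (not_le.mpr hy)]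
        exact this.continuousWithinAt
    · intro x hx
      refine (hD x hx.1).congr_of_eventuallyEq ?_
      filter_upwards [lt_mem_nhds hx.1] with y hy
      rw [if_neg (not_le.mpr hy)]
    · intro x hx; exact div_nonneg (hn0 x hx.1) hx.1.le
  -- Tonelli for the first integration
  have hII1 : ∀ t, 0 < t → ∫⁻ s : Icc (0 : ℝ) (2 * Real.pi), (∫⁻ x in Ioo 0 t,
      (ENNReal.ofReal ((x * Real.sin ((s : ℝ) / 2) + Real.cos ((s : ℝ) / 2)) ^ 2))⁻¹) ∂(μ : Measure (Icc (0 : ℝ) (2 * Real.pi)))
        = ENNReal.ofReal (n t) := by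
    intro t ht
    rw [lintegral_lintegral_swap (by fun_prop), ← hI1 t ht]
    apply setLIntegral_congr_fun measurableSet_Ioo
    intro x hx
    exact hform x hx.1
  -- good points
  have hgood : ∀ᵐ s : Icc (0 : ℝ) (2 * Real.pi) ∂(μ : Measure _),
      0 < Real.cos ((s : ℝ) / 2) ∨ Real.sin ((s : ℝ) / 2) = 0 := by
    have h1 : ∀ m : ℕ, ∀ᵐ s : Icc (0 : ℝ) (2 * Real.pi) ∂(μ : Measure (Icc (0 : ℝ) (2 * Real.pi))), ∫⁻ x in Ioo (0 : ℝ) (m + 1),
      (ENNReal.ofReal ((x * Real.sin ((s : ℝ) / 2) + Real.cos ((s : ℝ) / 2)) ^ 2))⁻¹ < ⊤ := by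
      intro m
      apply ae_lt_top
      · exact Measurable.lintegral_prod_right' (f := fun p : Icc (0 : ℝ) (2 * Real.pi) × ℝ =>
          (ENNReal.ofReal ((p.2 * Real.sin ((p.1 : ℝ) / 2) + Real.cos ((p.1 : ℝ) / 2)) ^ 2))⁻¹) (by fun_prop)
      · rw [hII1 _ (by positivity)]; exact ENNReal.ofReal_ne_top
    rw [← ae_all_iff] at h1
    filter_upwards [h1] with s hs
    by_contra hcon
    push Not at hcon
    have hsin : 0 ≤ Real.sin ((s : ℝ) / 2) := by
      apply Real.sin_nonneg_of_nonneg_of_le_pi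
      · have := s.2.1; linarith
      · have := s.2.2; linarith
    have hsin' : 0 < Real.sin ((s : ℝ) / 2) := lt_of_le_of_ne hsin (Ne.symm hcon.2)
    obtain ⟨m, hm⟩ := exists_nat_gt (-Real.cos ((s : ℝ) / 2) / Real.sin ((s : ℝ) / 2))
    have := lintegral_inv_linear_sq _ _ (m + 1 : ℝ) hcon.1 hsin' (by linarith)
    exact absurd (hs m) (by rw [this]; exact lt_irrefl _)
  -- notation
  set c : Icc (0 : ℝ) (2 * Real.pi) → ℝ := fun s => |Real.cos ((s : ℝ) / 2)| with hc
  set σ : Icc (0 : ℝ) (2 * Real.pi) → ℝ := fun s => Real.sin ((s : ℝ) / 2) with hσ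
  have hσ0 : ∀ s, 0 ≤ σ s := by
    intro s
    apply Real.sin_nonneg_of_nonneg_of_le_pi
    · have := s.2.1; linarith
    · have := s.2.2; linarith
  have hcσ1 : ∀ s, c s ^ 2 + σ s ^ 2 = 1 := by
    intro s
    simp only [hc, hσ, sq_abs]
    exact Real.cos_sq_add_sin_sq _
  have hcnn : ∀ s, 0 ≤ c s := fun s => abs_nonneg _
  have hcσ : ∀ s, σ s = 0 → c s = 1 := by
    intro s hs
    have h1 := hcσ1 s
    rw [hs] at h1
    have h2 := hcnn s
    nlinarith
  have hcs : ∀ s, 0 < c s + σ s := by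
    intro s
    have h1 := hcσ1 s
    have h2 := hcnn s
    have h3 := hσ0 s
    nlinarith
  have hcm : Measurable c := by simp only [hc]; fun_prop
  have hσm : Measurable σ := by simp only [hσ]; fun_prop
  have hcpos : ∀ᵐ s ∂(μ : Measure (Icc (0 : ℝ) (2 * Real.pi))), 0 < c s := by
    filter_upwards [hgood] with s hs
    rcases hs with h | h
    · exact abs_pos.mpr h.ne'
    · rw [hcσ s h]; norm_num
  have hsq : ∀ᵐ s : Icc (0 : ℝ) (2 * Real.pi) ∂(μ : Measure (Icc (0 : ℝ) (2 * Real.pi))), ∀ x : ℝ,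
      (x * Real.sin ((s : ℝ) / 2) + Real.cos ((s : ℝ) / 2)) ^ 2 = (x * σ s + c s) ^ 2 := by
    filter_upwards [hgood] with s hs
    intro x
    rcases hs with h | h
    · simp only [hc, hσ, abs_of_pos h]
    · simp only [hc, hσ, h, mul_zero, zero_add, sq_abs]
  have hn2 : ∀ t, 0 < t → ENNReal.ofReal (n t) =
      ∫⁻ s, ENNReal.ofReal (t / (c s * (t * σ s + c s))) ∂(μ : Measure (Icc (0 : ℝ) (2 * Real.pi))) := by
    intro t ht
    rw [← hII1 t ht]
    apply lintegral_congr_ae
    filter_upwards [hcpos, hsq] with s h1 h2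
    rw [← lint_P t (c s) (σ s) ht h1 (hσ0 s)]
    simp only [h2]
  have hD2 : ∀ l, 0 < l → ENNReal.ofReal (D l - D0) =
      ∫⁻ s, ENNReal.ofReal (Q l (c s) (σ s)) ∂(μ : Measure (Icc (0 : ℝ) (2 * Real.pi))) := by
    intro l hl
    rw [← hI2 l hl]
    have h1 : ∫⁻ t in Ioo 0 l, ENNReal.ofReal (n t / t)
        = ∫⁻ t in Ioo 0 l, ∫⁻ s, ENNReal.ofReal (1 / (c s * (t * σ s + c s))) ∂(μ : Measure (Icc (0 : ℝ) (2 * Real.pi))) := by
      apply setLIntegral_congr_fun measurableSet_Ioo
      intro t ht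
      have ht0 := ht.1
      simp only
      rw [div_eq_inv_mul, ENNReal.ofReal_mul (by positivity), hn2 t ht0, ← lintegral_const_mul _ (by fun_prop)]
      apply lintegral_congr
      intro s
      rw [← ENNReal.ofReal_mul (by positivity)]
      congr 1
      field_simp
    rw [h1, lintegral_lintegral_swap (by fun_prop)]
    apply lintegral_congr_ae
    filter_upwards [hcpos] with s h2
    exact lint_Q l (c s) (σ s) hl h2 (hσ0 s)
  have hQm : ∀ l, Measurable (fun s => Q l (c s) (σ s)) := by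
    intro l
    unfold Q
    apply Measurable.ite (hσm (measurableSet_singleton 0))
    · fun_prop
    · fun_prop
  -- the measure
  let τ : Icc (0 : ℝ) (2 * Real.pi) → Icc (0 : ℝ) 1 := fun s => ⟨c s / (c s + σ s), by
    constructor
    · have := hcnn s; have := hcs s; positivity
    · rw [div_le_one (hcs s)]; have := hσ0 s; linarith⟩
  have hτm : Measurable τ := by
    apply Measurable.subtype_mk
    fun_prop
  have hQint : ∀ l, 0 < l → Integrable (fun s => Q l (c s) (σ s)) (μ : Measure (Icc (0 : ℝ) (2 * Real.pi))) := by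
    intro l hl
    refine ⟨(hQm l).aestronglyMeasurable, ?_⟩
    rw [hasFiniteIntegral_iff_ofReal]
    · rw [← hD2 l hl]; exact ENNReal.ofReal_lt_top
    · filter_upwards [hcpos] with s h1
      exact Q_nonneg l _ _ hl.le h1 (hσ0 s)
  have hfin : IsFiniteMeasure ((μ : Measure (Icc (0 : ℝ) (2 * Real.pi))).withDensity
      (fun s => ENNReal.ofReal (Q 1 (c s) (σ s)))) :=
    isFiniteMeasure_withDensity_ofReal (hQint 1 one_pos).2
  have hfin2 : IsFiniteMeasure (((μ : Measure (Icc (0 : ℝ) (2 * Real.pi))).withDensity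
      (fun s => ENNReal.ofReal (Q 1 (c s) (σ s)))).map τ) := inferInstance
  let z0 : Icc (0 : ℝ) 1 := ⟨0, by norm_num⟩
  have hfin3 : IsFiniteMeasure (ENNReal.ofReal D0 • Measure.dirac z0) :=
    Measure.smul_finite _ ENNReal.ofReal_ne_top
  let V : FiniteMeasure (Icc (0 : ℝ) 1) :=
    ⟨((μ : Measure (Icc (0 : ℝ) (2 * Real.pi))).withDensity
      (fun s => ENNReal.ofReal (Q 1 (c s) (σ s)))).map τ + ENNReal.ofReal D0 • Measure.dirac z0, inferInstance⟩
  refine ⟨V, fun l hl => ?_⟩
  have hKm : Measurable (fun x : Icc (0 : ℝ) 1 => K l x) := (measurable_K l).comp measurable_subtype_coe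
  have hcompint : (fun s => (ENNReal.ofReal (Q 1 (c s) (σ s))).toReal • K l (τ s))
      =ᵐ[(μ : Measure (Icc (0 : ℝ) (2 * Real.pi)))] fun s => Q l (c s) (σ s) := by
    filter_upwards [hcpos] with s h1
    rw [ENNReal.toReal_ofReal (Q_nonneg 1 _ _ zero_le_one h1 (hσ0 s)), smul_eq_mul, mul_comm]
    exact K_Q l (c s) (σ s) hl h1 (hσ0 s) (hcσ s)
  have hi1 : Integrable (fun x : Icc (0 : ℝ) 1 => K l x) (((μ : Measure (Icc (0 : ℝ) (2 * Real.pi))).withDensity
      (fun s => ENNReal.ofReal (Q 1 (c s) (σ s)))).map τ) := by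
    rw [integrable_map_measure hKm.aestronglyMeasurable hτm.aemeasurable,
      integrable_withDensity_iff_integrable_smul' (hQm 1).ennreal_ofReal (by simp)]
    exact (hQint l hl).congr hcompint.symm
  have hi2 : Integrable (fun x : Icc (0 : ℝ) 1 => K l x) (ENNReal.ofReal D0 • Measure.dirac z0) := by
    apply Integrable.smul_measure _ ENNReal.ofReal_ne_top
    exact integrable_dirac (by simp)
  change D l = ∫ x : Icc (0 : ℝ) 1, K l x ∂(((μ : Measure (Icc (0 : ℝ) (2 * Real.pi))).withDensity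
      (fun s => ENNReal.ofReal (Q 1 (c s) (σ s)))).map τ + ENNReal.ofReal D0 • Measure.dirac z0)
  rw [integral_add_measure hi1 hi2, integral_smul_measure, integral_dirac,
    integral_map hτm.aemeasurable hKm.aestronglyMeasurable,
    integral_withDensity_eq_integral_toReal_smul (hQm 1).ennreal_ofReal (by simp), integral_congr_ae hcompint]
  have hQl : ∫ s, Q l (c s) (σ s) ∂(μ : Measure (Icc (0 : ℝ) (2 * Real.pi))) = D l - D0 := by
    rw [integral_eq_lintegral_of_nonneg_ae _ (hQm l).aestronglyMeasurable, ← hD2 l hl,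
      ENNReal.toReal_ofReal (by have := hD0le l hl; linarith)]
    filter_upwards [hcpos] with s h1
    exact Q_nonneg l _ _ hl.le h1 (hσ0 s)
  rw [hQl, ENNReal.toReal_ofReal hD0]
  simp [K, z0]

end Pool.Agent.Helper81.GGC
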